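import Pool.Agent.H102.VS.Main

/-! # A quantitative colourful Tverberg theorem with `d + 1` (in particular `2 d`) colour classes

The answer to Q1 is yes; `2 d` may be replaced by any number `q ≥ d + 1` of colour classes, and
`f(d,r) = C_d q r` is linear in `r`.  The theorem follows from the colourful homogeneous selection
theorem with volume for `d + 1` colour classes (`Pool.Agent.H102.VS.main`).
-/

namespace Pool.Agent.Results.MP_c36b31_co.ColorfulTverberg

open MeasureTheory

/-- **Quantitative colourful Tverberg theorem.** -/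
theorem result : ∀ d : ℕ, 1 ≤ d → ∃ v : ℝ, 0 < v ∧ ∃ C : ℕ, ∀ q r : ℕ, d + 1 ≤ q → 1 ≤ r →
    ∀ F : Fin q → Finset (Set (Fin d → ℝ)), (∀ j, C * q * r ≤ (F j).card) →
      (∀ j, ∀ K ∈ F j, Convex ℝ K ∧ volume K = 1) →
      ∃ T : Fin r → Fin q → Set (Fin d → ℝ), (∀ a j, T a j ∈ F j) ∧
        (∀ a b, a ≠ b → ∀ j k, T a j ≠ T b k) ∧
        ENNReal.ofReal v ≤ volume (⋂ a, convexHull ℝ (⋃ j, T a j)) := by
  classical
  intro d _
  obtain ⟨c, hc, v, hv, h⟩ := Pool.Agent.H102.VS.main d
  refine ⟨v, hv, ⌈1 / c⌉₊ + 1, ?_⟩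
  intro q r hq hr F hcard hF
  set C : ℕ := ⌈1 / c⌉₊ + 1 with hC
  have hC1 : 1 ≤ C := by omega
  have hCc : 1 ≤ c * (C : ℝ) := by
    have h1 : 1 / c ≤ (C : ℝ) := by
      rw [hC]; push_cast
      have := Nat.le_ceil (1 / c)
      linarith
    rw [div_le_iff₀ hc] at h1
    linarith
  have hqpos : 0 < q := by omega
  have hcardpos : ∀ j, 0 < (F j).card := fun j =>
    lt_of_lt_of_le (Nat.mul_pos (Nat.mul_pos hC1 hqpos) hr) (hcard j)
  let ι : Fin (d + 1) → Fin q := Fin.castLE hq
  let m : Fin (d + 1) → ℕ := fun i => (F (ι i)).card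
  let e : ∀ i, Fin (m i) ≃ F (ι i) := fun i => (F (ι i)).equivFin.symm
  obtain ⟨G, E, hG, hE, hvE, hsub⟩ := h m (fun i => hcardpos _)
    (fun i k => ((e i k : F (ι i)) : Set (Fin d → ℝ)))
    (fun i k => hF (ι i) _ (e i k).2)
  -- the classes from which we choose
  let H : Fin q → Finset (Set (Fin d → ℝ)) := fun j =>
    if hj : (j : ℕ) < d + 1 then
      (G ⟨j, hj⟩).image (fun k => ((e ⟨j, hj⟩ k : F (ι ⟨j, hj⟩)) : Set (Fin d → ℝ)))
    else F j
  have hHF : ∀ j, H j ⊆ F j := by
    intro j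
    by_cases hj : (j : ℕ) < d + 1
    · simp only [H, dif_pos hj]
      intro K hK
      obtain ⟨k, _, rfl⟩ := Finset.mem_image.mp hK
      exact (e ⟨j, hj⟩ k).2
    · simp only [H, dif_neg hj]; exact subset_rfl
  have hHcard : ∀ j, r * q ≤ (H j).card := by
    intro j
    by_cases hj : (j : ℕ) < d + 1
    · simp only [H, dif_pos hj]
      rw [Finset.card_image_of_injective]
      · have h1 := hG ⟨j, hj⟩
        have h2 : ((C * q * r : ℕ) : ℝ) ≤ (m ⟨j, hj⟩ : ℝ) := by
          exact_mod_cast hcard (ι ⟨j, hj⟩)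
        have h3 : ((r * q : ℕ) : ℝ) ≤ ((G ⟨j, hj⟩).card : ℝ) := by
          calc ((r * q : ℕ) : ℝ) = 1 * ((q : ℝ) * r) := by push_cast; ring
            _ ≤ (c * C) * ((q : ℝ) * r) := by
                apply mul_le_mul_of_nonneg_right hCc (by positivity)
            _ = c * ((C * q * r : ℕ) : ℝ) := by push_cast; ring
            _ ≤ c * (m ⟨j, hj⟩ : ℝ) := by
                apply mul_le_mul_of_nonneg_left h2 hc.le
            _ ≤ _ := h1
        exact_mod_cast h3
      · intro k k' hkk
        exact (e ⟨j, hj⟩).injective (Subtype.ext hkk)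
    · simp only [H, dif_neg hj]
      calc r * q ≤ C * (q * r) := by nlinarith [Nat.mul_le_mul_right (q * r) hC1]
        _ = C * q * r := by ring
        _ ≤ _ := hcard j
  -- distinct representatives
  obtain ⟨f, hfinj, hf⟩ := (Finset.all_card_le_biUnion_card_iff_exists_injective
    (fun x : Fin r × Fin q => H x.2)).mp (by
      intro s
      rcases s.eq_empty_or_nonempty with rfl | ⟨x, hx⟩
      · simp
      · calc s.card ≤ Fintype.card (Fin r × Fin q) := Finset.card_le_univ s
          _ = r * q := by simp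
          _ ≤ (H x.2).card := hHcard x.2
          _ ≤ _ := Finset.card_le_card (Finset.subset_biUnion_of_mem
              (fun x : Fin r × Fin q => H x.2) hx))
  refine ⟨fun a j => f (a, j), fun a j => hHF j (hf (a, j)), ?_, ?_⟩
  · intro a b hab j k heq
    exact hab (congrArg Prod.fst (hfinj heq))
  · refine hvE.trans (measure_mono ?_)
    apply Set.subset_iInter
    intro a
    have hk : ∀ i : Fin (d + 1), ∃ k ∈ G i, ((e i k : F (ι i)) : Set (Fin d → ℝ)) = f (a, ι i) := by
      intro i
      have h1 := hf (a, ι i)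
      have h2 : ((ι i : Fin q) : ℕ) < d + 1 := i.2
      simp only [H, dif_pos h2] at h1
      obtain ⟨k, hk, hk2⟩ := Finset.mem_image.mp h1
      exact ⟨k, hk, hk2⟩
    choose k hkG hkf using hk
    refine (hsub k hkG).trans (convexHull_mono ?_)
    apply Set.iUnion_subset
    intro i
    rw [hkf i]
    exact Set.subset_iUnion (fun j => f (a, j)) (ι i)

end Pool.Agent.Results.MP_c36b31_co.ColorfulTverberg
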